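import Pool.Agent.N556.RP.Main

set_option autoImplicit false
open MeasureTheory Filter Topology
open scoped Pointwise

namespace Pool.Agent.N556.RP

open Pool.Agent.S12408 (E3 cap vol_cap vec mem_cap_of_dist exists_of_mem_cap lead3 lead2 steiner
  vec_0 vec_1 vec_2)
open Pool.Agent.R759.RD (zonotope isCompact_zonotope volume_zonotope)

/-- the orthogonal projection along the unit vector `u` -/
noncomputable def T (u : E3) : E3 →ₗ[ℝ] E3 where
  toFun x := x - (inner ℝ u x) • u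
  map_add' x y := by
    simp only [inner_add_right]
    module
  map_smul' r x := by
    simp only [inner_smul_right, RingHom.id_apply]
    module

lemma T_apply (u x : E3) : T u x = x - (inner ℝ u x) • u := rfl

lemma T_norm_sq {u : E3} (hu : ‖u‖ = 1) (x : E3) : ‖T u x‖ ^ 2 = ‖x‖ ^ 2 - (inner ℝ u x) ^ 2 := by
  rw [T_apply, norm_sub_sq_real, norm_smul, hu, inner_smul_right, real_inner_comm x u]
  simp only [Real.norm_eq_abs, mul_one, sq_abs]
  ring

lemma T_norm_le {u : E3} (hu : ‖u‖ = 1) (x : E3) : ‖T u x‖ ≤ ‖x‖ := by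
  have h1 := T_norm_sq hu x
  have h2 := sq_nonneg (inner ℝ u x : ℝ)
  exact (pow_le_pow_iff_left₀ (norm_nonneg _) (norm_nonneg _) two_ne_zero).1 (by linarith)

lemma norm_vec_sq (a b c : ℝ) : ‖vec a b c‖ ^ 2 = a ^ 2 + b ^ 2 + c ^ 2 := by
  rw [EuclideanSpace.norm_eq, Real.sq_sqrt (by positivity)]
  simp [Fin.sum_univ_three, vec]

lemma inner_vec (u : E3) (a b c : ℝ) : inner ℝ u (vec a b c) = a * u 0 + b * u 1 + c * u 2 := by
  simp [PiLp.inner_apply, Fin.sum_univ_three, vec]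

lemma sum_sq {u : E3} (hu : ‖u‖ = 1) : u 0 ^ 2 + u 1 ^ 2 + u 2 ^ 2 = 1 := by
  have h : ‖u‖ ^ 2 = 1 := by rw [hu]; norm_num
  rw [EuclideanSpace.norm_eq, Real.sq_sqrt (by positivity)] at h
  simpa [Fin.sum_univ_three] using h

/-- the surface area part -/
lemma surface {a b : ℝ} (ha : 0 < a) (hb : 0 < b) :
    ∃ S : ℝ, a ≤ S ∧ Tendsto (fun t : ℝ =>
        ((volume (zonotope (q3 a b) + Metric.closedBall (0 : E3) t)).toReal
          - (volume (zonotope (q3 a b))).toReal) / (2 * t)) (𝓝[>] 0) (𝓝 S) := by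
  have hK : IsCompact (zonotope (q3 a b)) := isCompact_zonotope _
  have hne : (zonotope (q3 a b)).Nonempty :=
    ⟨_, mem_q3.2 ⟨0, 0, 0, by norm_num, by norm_num, by norm_num, rfl⟩⟩
  obtain ⟨b0, b1, b2, b3, hf⟩ := steiner3 hK (convex_zonotope _) hne
  have hpoly : ∀ p : ℝ → ℝ, Continuous p → Tendsto p (𝓝[>] 0) (𝓝 (p 0)) := fun p hp =>
    tendsto_nhdsWithin_of_tendsto_nhds (hp.tendsto 0)
  have hv : (volume (zonotope (q3 a b))).toReal = a * b := by
    rw [vol_q3 a b ha hb, ENNReal.toReal_ofReal (by positivity)]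
  -- the constant coefficient
  have e0 : b0 = a * b := by
    have h1 : Tendsto (fun t : ℝ => volume (Metric.cthickening t (zonotope (q3 a b)))) (𝓝[>] 0)
        (𝓝 (volume (zonotope (q3 a b)))) :=
      tendsto_nhdsWithin_of_tendsto_nhds (tendsto_measure_cthickening_of_isCompact hK)
    have h2 := (ENNReal.tendsto_toReal hK.measure_lt_top.ne).comp h1
    have h3 := hpoly (fun t : ℝ => b0 + b1 * t + b2 * t ^ 2 + b3 * t ^ 3) (by fun_prop)
    have h4 : (ENNReal.toReal ∘ fun t : ℝ => volume (Metric.cthickening t (zonotope (q3 a b))))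
        =ᶠ[𝓝[>] 0] (fun t : ℝ => b0 + b1 * t + b2 * t ^ 2 + b3 * t ^ 3) := by
      filter_upwards [self_mem_nhdsWithin] with t ht
      have ht' : (0 : ℝ) < t := ht
      rw [← hf t ht', hK.add_closedBall_zero ht'.le]
      rfl
    have h5 := tendsto_nhds_unique (h2.congr' h4) h3
    rw [hv] at h5
    norm_num at h5
    linarith
  have hlim : Tendsto (fun t : ℝ =>
        ((volume (zonotope (q3 a b) + Metric.closedBall (0 : E3) t)).toReal
          - (volume (zonotope (q3 a b))).toReal) / (2 * t)) (𝓝[>] 0) (𝓝 (b1 / 2)) := by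
    have h2 := hpoly (fun t : ℝ => (b1 + b2 * t + b3 * t ^ 2) / 2) (by fun_prop)
    have h3 : (fun t : ℝ => (b1 + b2 * t + b3 * t ^ 2) / 2) =ᶠ[𝓝[>] 0] (fun t : ℝ =>
        ((volume (zonotope (q3 a b) + Metric.closedBall (0 : E3) t)).toReal
          - (volume (zonotope (q3 a b))).toReal) / (2 * t)) := by
      filter_upwards [self_mem_nhdsWithin] with t ht
      have ht' : (0 : ℝ) < t := ht
      rw [hf t ht', hv, e0]
      field_simp
      ring
    have h4 := h2.congr' h3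
    norm_num at h4
    exact h4
  refine ⟨b1 / 2, ?_, hlim⟩
  refine ge_of_tendsto hlim ?_
  filter_upwards [self_mem_nhdsWithin] with t ht
  have ht' : (0 : ℝ) < t := ht
  rw [le_div_iff₀ (by positivity)]
  -- the box with the `y`-edge enlarged
  have hsub : (fun x => vec 0 (-t) 0 + x) '' zonotope (q3 a (b + 2 * t)) ⊆
      zonotope (q3 a b) + Metric.closedBall (0 : E3) t := by
    rintro _ ⟨x, hx, rfl⟩
    obtain ⟨r, s, v, hr, hs, hv, rfl⟩ := mem_q3.1 hx
    refine ⟨_, mem_q3.2 ⟨r, s, v, hr, hs, hv, rfl⟩, vec 0 ((2 * s - 1) * t) 0, ?_, ?_⟩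
    · rw [Metric.mem_closedBall, dist_zero_right]
      have h1 := norm_vec_sq 0 ((2 * s - 1) * t) 0
      have h2 : ((2 * s - 1) * t) ^ 2 ≤ t ^ 2 := by
        rw [mul_pow]
        have : (2 * s - 1) ^ 2 ≤ 1 := by nlinarith [hs.1, hs.2]
        nlinarith [sq_nonneg t]
      exact (pow_le_pow_iff_left₀ (norm_nonneg _) ht'.le two_ne_zero).1 (by linarith)
    · ext i
      fin_cases i <;> simp [vec]
      ring
  have h1 := ENNReal.toReal_mono (add_ball_ne_top hK t) (measure_mono (μ := volume) hsub)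
  rw [Set.image_add_left, measure_preimage_add, vol_q3 a (b + 2 * t) ha (by positivity),
    ENNReal.toReal_ofReal (by positivity)] at h1
  rw [hv]
  linarith

/-- the projections -/
lemma projection {a b : ℝ} (ha : 0 < a) (hb : 0 < b) {u : E3} (hu : ‖u‖ = 1) {L : ℝ}
    (h : Tendsto (fun t : ℝ =>
        ((volume ((fun x : E3 => x - (inner ℝ u x) • u) '' zonotope (q3 a b)
              + Metric.closedBall (0 : E3) t)).toReal
          - 2 * t * ((volume (zonotope (q3 a b) + segment ℝ (0 : E3) u)).toReal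
              - (volume (zonotope (q3 a b))).toReal)) / (Real.pi * t ^ 2))
        (𝓝[>] 0) (𝓝 L)) :
    0 < L ∧ L ≤ √(1 - u 2 ^ 2) + 4 * (a + b) := by
  have hpi := Real.pi_pos
  set K := zonotope (q3 a b) with hKdef
  have hK : IsCompact K := isCompact_zonotope _
  have h0K : (0 : E3) ∈ K := mem_q3.2 ⟨0, 0, 0, by norm_num, by norm_num, by norm_num, by simp⟩
  set P := (T u) '' K with hPdef
  have hP : IsCompact P := hK.image (T u).continuous_of_finiteDimensional
  have hPc : Convex ℝ P := (convex_zonotope _).linear_image (T u)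
  have hPne : P.Nonempty := ⟨_, 0, h0K, rfl⟩
  obtain ⟨a0, a1, a2, a3, hf⟩ := steiner3 hP hPc hPne
  have e2 : a2 = Real.pi * L := coeff_two (f := fun t =>
    (volume (P + Metric.closedBall (0 : E3) t)).toReal) hf h
  have hmem : ∀ v ∈ K, ∀ s : ℝ, 0 ≤ s → s ≤ 1 → s • T u v ∈ P := by
    intro v hv s h0 h1
    refine ⟨s • v, ?_, map_smul _ _ _⟩
    have := (convex_zonotope (q3 a b)) h0K hv (sub_nonneg.2 h1) h0 (by ring)
    simpa using this
  have hn0 : ‖vec a 0 0‖ = a := by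
    have := norm_vec_sq a 0 0
    refine (pow_left_inj₀ (norm_nonneg _) ha.le two_ne_zero).1 (by linarith)
  have hn1 : ‖vec 0 b 0‖ = b := by
    have := norm_vec_sq 0 b 0
    refine (pow_left_inj₀ (norm_nonneg _) hb.le two_ne_zero).1 (by linarith)
  have hw : ∀ x ∈ P, ∃ s : ℝ, 0 ≤ s ∧ s ≤ 1 ∧ dist x (s • T u (vec 0 0 1)) ≤ a + b := by
    rintro _ ⟨x, hx, rfl⟩
    obtain ⟨r, s, t, hr, hs, ht, rfl⟩ := mem_q3.1 hx
    refine ⟨t, ht.1, ht.2, ?_⟩
    rw [dist_eq_norm]
    have e : T u (r • vec a 0 0 + s • vec 0 b 0 + t • vec 0 0 1) - t • T u (vec 0 0 1) =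
        r • T u (vec a 0 0) + s • T u (vec 0 b 0) := by
      rw [map_add, map_add, map_smul, map_smul, map_smul]
      abel
    rw [e]
    calc ‖r • T u (vec a 0 0) + s • T u (vec 0 b 0)‖
        ≤ ‖r • T u (vec a 0 0)‖ + ‖s • T u (vec 0 b 0)‖ := norm_add_le _ _
      _ = r * ‖T u (vec a 0 0)‖ + s * ‖T u (vec 0 b 0)‖ := by
          rw [norm_smul, norm_smul, Real.norm_of_nonneg hr.1, Real.norm_of_nonneg hs.1]
      _ ≤ 1 * a + 1 * b := by
          have i1 := T_norm_le hu (vec a 0 0)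
          have i2 := T_norm_le hu (vec 0 b 0)
          rw [hn0] at i1
          rw [hn1] at i2
          exact add_le_add (mul_le_mul hr.2 i1 (norm_nonneg _) zero_le_one)
            (mul_le_mul hs.2 i2 (norm_nonneg _) zero_le_one)
      _ = a + b := by ring
  have m0 : vec a 0 0 ∈ K := mem_q3.2 ⟨1, 0, 0, by norm_num, by norm_num, by norm_num, by simp⟩
  have m2 : vec 0 0 1 ∈ K := mem_q3.2 ⟨0, 0, 1, by norm_num, by norm_num, by norm_num, by simp⟩
  have hδ : 0 ≤ a + b := by positivity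
  have hb0 := coeff_bounds hP hf (T u (vec 0 0 1)) (T u (vec a 0 0)) hδ hw (hmem _ m0)
  have hb2 := coeff_bounds hP hf (T u (vec 0 0 1)) (T u (vec 0 0 1)) hδ hw (hmem _ m2)
  rw [e2] at hb0 hb2
  have hs := sum_sq hu
  have n2 : ‖T u (vec 0 0 1)‖ = √(1 - u 2 ^ 2) := by
    rw [← Real.sqrt_sq (norm_nonneg (T u (vec 0 0 1))), T_norm_sq hu, norm_vec_sq, inner_vec]
    congr 1
    ring
  have n0 : ‖T u (vec a 0 0)‖ ^ 2 = a ^ 2 * (1 - u 0 ^ 2) := by
    rw [T_norm_sq hu, norm_vec_sq, inner_vec]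
    ring
  refine ⟨?_, ?_⟩
  · have i0 : ‖T u (vec a 0 0)‖ ≤ L := le_of_mul_le_mul_left hb0.1 hpi
    have i2 : ‖T u (vec 0 0 1)‖ ≤ L := le_of_mul_le_mul_left hb2.1 hpi
    have hL : 0 ≤ L := (norm_nonneg _).trans i0
    rcases hL.lt_or_eq with hL | hL
    · exact hL
    · exfalso
      rw [← hL] at i0 i2
      have j0 : ‖T u (vec a 0 0)‖ = 0 := le_antisymm i0 (norm_nonneg _)
      have j2 : ‖T u (vec 0 0 1)‖ = 0 := le_antisymm i2 (norm_nonneg _)
      rw [j0] at n0
      have k2 : ‖T u (vec 0 0 1)‖ ^ 2 = 1 - u 2 ^ 2 := by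
        rw [T_norm_sq hu, norm_vec_sq, inner_vec]
        ring
      rw [j2] at k2
      have k0 : 1 - u 0 ^ 2 = 0 := by
        have : a ^ 2 * (1 - u 0 ^ 2) = 0 := by rw [← n0]; norm_num
        rcases mul_eq_zero.1 this with h | h
        · exact absurd h (by positivity)
        · exact h
      nlinarith [sq_nonneg (u 1)]
  · rw [← n2]
    exact le_of_mul_le_mul_left hb2.2 hpi

theorem main_result :
    ¬ (∀ (K : Set (EuclideanSpace ℝ (Fin 3))) (c : ℝ),
    IsCompact K → Convex ℝ K → (interior K).Nonempty →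
    (∀ u ∈ Metric.sphere (0 : EuclideanSpace ℝ (Fin 3)) 1, ∀ L : ℝ,
      Filter.Tendsto (fun t : ℝ =>
        ((volume ((fun x : EuclideanSpace ℝ (Fin 3) => x - (inner ℝ u x) • u) '' K
              + Metric.closedBall (0 : EuclideanSpace ℝ (Fin 3)) t)).toReal
          - 2 * t * ((volume (K + segment ℝ (0 : EuclideanSpace ℝ (Fin 3)) u)).toReal
              - (volume K).toReal)) / (Real.pi * t ^ 2))
        (nhdsWithin 0 (Set.Ioi 0)) (nhds L) →
      c ≤ Real.pi * ((volume (K + segment ℝ (0 : EuclideanSpace ℝ (Fin 3)) u)).toReal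
              - (volume K).toReal) / L ^ 2) →
    ∀ S : ℝ,
      Filter.Tendsto (fun t : ℝ =>
        ((volume (K + Metric.closedBall (0 : EuclideanSpace ℝ (Fin 3)) t)).toReal
          - (volume K).toReal) / (2 * t))
        (nhdsWithin 0 (Set.Ioi 0)) (nhds S) →
      c ≤ 9 * Real.pi * (volume K).toReal ^ 2 / (2 * S ^ 3)) := by
  intro H
  have hpi := Real.pi_pos
  obtain ⟨a, ha⟩ : ∃ a : ℝ, a = 1 / 128 := ⟨_, rfl⟩
  obtain ⟨b, hb⟩ : ∃ b : ℝ, b = 1 / 1280 := ⟨_, rfl⟩
  have ha0 : 0 < a := by rw [ha]; norm_num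
  have hb0 : 0 < b := by rw [hb]; norm_num
  have hv : (volume (zonotope (q3 a b))).toReal = a * b := by
    rw [vol_q3 a b ha0 hb0, ENNReal.toReal_ofReal (by positivity)]
  obtain ⟨S, hS, hlim⟩ := surface ha0 hb0
  have hpos : volume (zonotope (q3 a b)) ≠ 0 := by
    rw [vol_q3 a b ha0 hb0]
    simp only [ne_eq, ENNReal.ofReal_eq_zero, not_le]
    positivity
  have h1 := H (zonotope (q3 a b)) (Real.pi * b / 2) (isCompact_zonotope _) (convex_zonotope _)
    (interior_nonempty_of_pos (convex_zonotope _) hpos) ?_ S hlim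
  · rw [hv] at h1
    have hS0 : 0 < S := lt_of_lt_of_le ha0 hS
    rw [le_div_iff₀ (by positivity)] at h1
    have h2 : a ^ 3 ≤ S ^ 3 := pow_le_pow_left₀ ha0.le hS 3
    have h3 : Real.pi * b / 2 * (2 * a ^ 3) ≤ 9 * Real.pi * (a * b) ^ 2 :=
      le_trans (mul_le_mul_of_nonneg_left (by linarith) (by positivity)) h1
    rw [ha, hb] at h3
    nlinarith
  · intro u hu L hL
    have hu' : ‖u‖ = 1 := by simpa using hu
    obtain ⟨hL0, hL1⟩ := projection ha0 hb0 hu' hL
    rw [hv, q3_add_segment, vol_q4 a b ha0 hb0 u, ENNReal.toReal_ofReal (by positivity),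
      le_div_iff₀ (by positivity)]
    have hs := sum_sq hu'
    set l := √(1 - u 2 ^ 2) with hl
    have hl0 : 0 ≤ l := Real.sqrt_nonneg _
    have hl2 : l ^ 2 = 1 - u 2 ^ 2 := Real.sq_sqrt (by nlinarith [sq_nonneg (u 0), sq_nonneg (u 1)])
    have hl1 : l ≤ 1 := by nlinarith [sq_nonneg (u 2)]
    have i1 : l ≤ |u 0| + |u 1| := by
      apply (pow_le_pow_iff_left₀ hl0 (by positivity) two_ne_zero).1
      have : (|u 0| + |u 1|) ^ 2 = u 0 ^ 2 + u 1 ^ 2 + 2 * (|u 0| * |u 1|) := by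
        rw [add_sq, sq_abs, sq_abs]; ring
      rw [this]
      have : 0 ≤ |u 0| * |u 1| := by positivity
      linarith
    have i2 : 1 - l ≤ |u 2| := by
      have : 1 ≤ (|u 2| + l) ^ 2 := by
        rw [add_sq, sq_abs]
        have : 0 ≤ |u 2| * l := by positivity
        nlinarith
      have h0 : 0 ≤ |u 2| + l := by positivity
      nlinarith
    have i3 : L ^ 2 ≤ (l + 4 * (a + b)) ^ 2 := pow_le_pow_left₀ hL0.le hL1 2
    have i4 : b / 2 * (l + 4 * (a + b)) ^ 2 ≤ a * b * |u 2| + a * |u 1| + b * |u 0| := by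
      rw [ha, hb]
      have : l ^ 2 ≤ l := by nlinarith
      have := abs_nonneg (u 0)
      have := abs_nonneg (u 1)
      nlinarith
    calc Real.pi * b / 2 * L ^ 2 = Real.pi * (b / 2 * L ^ 2) := by ring
      _ ≤ Real.pi * (b / 2 * (l + 4 * (a + b)) ^ 2) := by
          apply mul_le_mul_of_nonneg_left _ hpi.le
          exact mul_le_mul_of_nonneg_left i3 (by positivity)
      _ ≤ Real.pi * (a * b * |u 2| + a * |u 1| + b * |u 0|) :=
          mul_le_mul_of_nonneg_left i4 hpi.le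
      _ = Real.pi * (a * b + (a * b * |u 2| + a * |u 1| + b * |u 0|) - a * b) := by ring

end Pool.Agent.N556.RP
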