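import Pool.Agent.R759.HexVol
import Pool.Agent.S12408

/-! # A box in `ℝ³` whose projections are rounder than the box itself -/

set_option autoImplicit false
open MeasureTheory Filter Topology
open scoped Pointwise

namespace Pool.Agent.N556.RP

open Pool.Agent.S12408 (E3 cap vol_cap vec mem_cap_of_dist exists_of_mem_cap lead3 lead2 steiner
  vec_0 vec_1 vec_2)
open Pool.Agent.R759.RD (zonotope isCompact_zonotope volume_zonotope)
open Pool.Agent.R759.Hex (DD_of)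

/-! ### Zonotopes -/

lemma convex_zonotope {d n : ℕ} (p : Fin n → EuclideanSpace ℝ (Fin d)) :
    Convex ℝ (zonotope p) := by
  rintro x ⟨s, hs, rfl⟩ y ⟨t, ht, rfl⟩ α β hα hβ hαβ
  refine ⟨fun i => α * s i + β * t i, fun i => ⟨?_, ?_⟩, ?_⟩
  · exact add_nonneg (mul_nonneg hα (hs i).1) (mul_nonneg hβ (ht i).1)
  · calc α * s i + β * t i ≤ α * 1 + β * 1 :=
        add_le_add (mul_le_mul_of_nonneg_left (hs i).2 hα) (mul_le_mul_of_nonneg_left (ht i).2 hβ)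
      _ = 1 := by rw [mul_one, mul_one, hαβ]
  · rw [Finset.smul_sum, Finset.smul_sum, ← Finset.sum_add_distrib]
    refine Finset.sum_congr rfl fun i _ => ?_
    rw [smul_smul, smul_smul, ← add_smul]

lemma interior_nonempty_of_pos {d : ℕ} {K : Set (EuclideanSpace ℝ (Fin d))} (hc : Convex ℝ K)
    (hv : volume K ≠ 0) : (interior K).Nonempty := by
  by_contra h
  rw [Set.not_nonempty_iff_eq_empty] at h
  apply hv
  have h1 : volume (frontier K) = 0 := hc.addHaar_frontier volume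
  refine measure_mono_null ?_ h1
  intro x hx
  exact ⟨subset_closure hx, by rw [h]; exact Set.notMem_empty x⟩

/-- edge vectors of the box `[0,a] × [0,b] × [0,1]` -/
noncomputable def q3 (a b : ℝ) : Fin 3 → E3 := ![vec a 0 0, vec 0 b 0, vec 0 0 1]

/-- with a fourth vector -/
noncomputable def q4 (a b : ℝ) (u : E3) : Fin 4 → E3 := ![vec a 0 0, vec 0 b 0, vec 0 0 1, u]

lemma Dt_q3 (a b : ℝ) (ha : 0 ≤ a) (hb : 0 ≤ b) :
    H354ZN.Dt (m := 2) (fun i => (q3 a b i).ofLp) = a * b := by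
  unfold H354ZN.Dt H354ZN.Ps
  have h1 : Finset.powersetCard (2 + 1) (Finset.univ : Finset (Fin 3)) =
      {{0, 1, 2}} := by decide
  rw [h1, Finset.sum_singleton]
  rw [DD_of _ {0, 1, 2} ![0, 1, 2] (by decide) (by decide) (by decide)]
  simp only [Matrix.det_fin_three, Matrix.of_apply, q3, vec]
  simp
  rw [abs_of_nonneg ha, abs_of_nonneg hb]

lemma Dt_q4 (a b : ℝ) (ha : 0 ≤ a) (hb : 0 ≤ b) (u : E3) :
    H354ZN.Dt (m := 2) (fun i => (q4 a b u i).ofLp) =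
      a * b + (a * b * |u 2| + a * |u 1| + b * |u 0|) := by
  unfold H354ZN.Dt H354ZN.Ps
  have h1 : Finset.powersetCard (2 + 1) (Finset.univ : Finset (Fin 4)) =
      {{0, 1, 2}, {0, 1, 3}, {0, 2, 3}, {1, 2, 3}} := by decide
  rw [h1, Finset.sum_insert (by decide), Finset.sum_insert (by decide),
    Finset.sum_insert (by decide), Finset.sum_singleton]
  rw [DD_of _ {0, 1, 2} ![0, 1, 2] (by decide) (by decide) (by decide),
    DD_of _ {0, 1, 3} ![0, 1, 3] (by decide) (by decide) (by decide),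
    DD_of _ {0, 2, 3} ![0, 2, 3] (by decide) (by decide) (by decide),
    DD_of _ {1, 2, 3} ![1, 2, 3] (by decide) (by decide) (by decide)]
  simp only [Matrix.det_fin_three, Matrix.of_apply, q4, vec]
  simp [abs_mul]
  rw [abs_of_nonneg ha, abs_of_nonneg hb]
  ring

lemma vol_q3 (a b : ℝ) (ha : 0 < a) (hb : 0 < b) :
    volume (zonotope (q3 a b)) = ENNReal.ofReal (a * b) := by
  rw [← Dt_q3 a b ha.le hb.le]
  refine volume_zonotope (m := 2) _ ?_
  rw [Dt_q3 a b ha.le hb.le]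
  positivity

lemma vol_q4 (a b : ℝ) (ha : 0 < a) (hb : 0 < b) (u : E3) :
    volume (zonotope (q4 a b u)) =
      ENNReal.ofReal (a * b + (a * b * |u 2| + a * |u 1| + b * |u 0|)) := by
  rw [← Dt_q4 a b ha.le hb.le u]
  refine volume_zonotope (m := 2) _ ?_
  rw [Dt_q4 a b ha.le hb.le u]
  positivity

lemma mem_q3 {a b : ℝ} {x : E3} : x ∈ zonotope (q3 a b) ↔
    ∃ r s t : ℝ, (0 ≤ r ∧ r ≤ 1) ∧ (0 ≤ s ∧ s ≤ 1) ∧ (0 ≤ t ∧ t ≤ 1) ∧
      x = r • vec a 0 0 + s • vec 0 b 0 + t • vec 0 0 1 := by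
  constructor
  · rintro ⟨t, ht, rfl⟩
    refine ⟨t 0, t 1, t 2, ht 0, ht 1, ht 2, ?_⟩
    rw [Fin.sum_univ_three]
    rfl
  · rintro ⟨r, s, t, hr, hs, ht, rfl⟩
    refine ⟨![r, s, t], ?_, ?_⟩
    · intro i
      fin_cases i
      exacts [hr, hs, ht]
    · rw [Fin.sum_univ_three]
      rfl

lemma q3_add_segment (a b : ℝ) (u : E3) :
    zonotope (q3 a b) + segment ℝ (0 : E3) u = zonotope (q4 a b u) := by
  ext x
  constructor
  · rintro ⟨y, hy, z, hz, rfl⟩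
    obtain ⟨r, s, t, hr, hs, ht, rfl⟩ := mem_q3.1 hy
    rw [segment_eq_image] at hz
    obtain ⟨θ, hθ, rfl⟩ := hz
    refine ⟨![r, s, t, θ], ?_, ?_⟩
    · intro i
      fin_cases i
      exacts [hr, hs, ht, ⟨hθ.1, hθ.2⟩]
    · rw [Fin.sum_univ_four]
      simp [q4]
  · rintro ⟨t, ht, rfl⟩
    refine ⟨t 0 • vec a 0 0 + t 1 • vec 0 b 0 + t 2 • vec 0 0 1,
      mem_q3.2 ⟨t 0, t 1, t 2, ht 0, ht 1, ht 2, rfl⟩, t 3 • u, ?_, ?_⟩
    · rw [segment_eq_image]
      exact ⟨t 3, ⟨(ht 3).1, (ht 3).2⟩, by simp⟩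
    · rw [Fin.sum_univ_four]
      simp [q4]

/-! ### Capsules -/

/-- the closed `e`-neighbourhood of the segment from `0` to `w` -/
def Cap (w : E3) (e : ℝ) : Set E3 := {x | ∃ s : ℝ, 0 ≤ s ∧ s ≤ 1 ∧ dist x (s • w) ≤ e}

lemma exists_rot (w : E3) : ∃ R : E3 ≃ₗᵢ[ℝ] E3, R (vec ‖w‖ 0 0) = w := by
  have hn : ‖vec ‖w‖ 0 0‖ = ‖w‖ := by
    rw [EuclideanSpace.norm_eq]
    simp [Fin.sum_univ_three, vec]
  exact ⟨_, Submodule.reflection_sub hn⟩

lemma Cap_preimage (w : E3) (e : ℝ) (he : 0 ≤ e) (R : E3 ≃ₗᵢ[ℝ] E3) (hR : R (vec ‖w‖ 0 0) = w) :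
    R ⁻¹' (Cap w e) = cap 0 ‖w‖ e := by
  have key : ∀ (x : E3) (s : ℝ), dist (R x) (s • w) = dist x (vec (s * ‖w‖) 0 0) := by
    intro x s
    have h1 : s • w = R (vec (s * ‖w‖) 0 0) := by
      rw [← hR, ← map_smul]
      congr 1
      rw [hR]
      ext i
      fin_cases i <;> simp [vec]
    rw [h1, R.dist_map]
  ext x
  constructor
  · rintro ⟨s, h0, h1, h2⟩
    rw [key] at h2
    exact mem_cap_of_dist he (by positivity) (mul_le_of_le_one_left (norm_nonneg w) h1) h2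
  · intro hx
    obtain ⟨s, h0, h1, h2⟩ := exists_of_mem_cap (norm_nonneg w) he hx
    by_cases hw : ‖w‖ = 0
    · refine ⟨0, le_rfl, zero_le_one, ?_⟩
      rw [key, zero_mul]
      have : s = 0 := le_antisymm (hw ▸ h1) h0
      rwa [this] at h2
    · have hw' : 0 < ‖w‖ := lt_of_le_of_ne (norm_nonneg w) (Ne.symm hw)
      refine ⟨s / ‖w‖, by positivity, (div_le_one hw').2 h1, ?_⟩
      rw [key, div_mul_cancel₀ _ hw]
      exact h2

lemma vol_Cap (w : E3) (e : ℝ) (he : 0 ≤ e) :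
    volume (Cap w e) = ENNReal.ofReal (4 / 3 * Real.pi * e ^ 3 + ‖w‖ * Real.pi * e ^ 2) := by
  obtain ⟨R, hR⟩ := exists_rot w
  have h1 : volume (R ⁻¹' (Cap w e)) = volume (Cap w e) := by
    have h2 : MeasurePreserving (R.toHomeomorph.toMeasurableEquiv) (volume : Measure E3) volume :=
      R.measurePreserving
    exact h2.measure_preimage_equiv _
  rw [← h1, Cap_preimage w e he R hR, vol_cap _ _ _ (norm_nonneg w) he, sub_zero]

/-! ### Steiner polynomials -/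

/-- Steiner polynomial in dimension three -/
lemma steiner3 {P : Set E3} (hP : IsCompact P) (hc : Convex ℝ P) (hne : P.Nonempty) :
    ∃ a0 a1 a2 a3 : ℝ, ∀ t : ℝ, 0 < t →
      (volume (P + Metric.closedBall (0 : E3) t)).toReal =
        a0 + a1 * t + a2 * t ^ 2 + a3 * t ^ 3 := by
  obtain ⟨a, ha⟩ := steiner hP hc hne
  refine ⟨a 0, a 1, a 2, a 3, fun t ht => ?_⟩
  rw [hP.add_closedBall_zero ht.le, ha t ht, Finset.sum_range_succ, Finset.sum_range_succ,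
    Finset.sum_range_succ, Finset.sum_range_succ, Finset.sum_range_zero]
  ring

lemma add_ball_ne_top {P : Set E3} (hP : IsCompact P) (t : ℝ) :
    volume (P + Metric.closedBall (0 : E3) t) ≠ ⊤ :=
  (hP.add (isCompact_closedBall _ _)).measure_lt_top.ne

lemma vol_lower {P : Set E3} (hP : IsCompact P) (w : E3)
    (hw : ∀ s : ℝ, 0 ≤ s → s ≤ 1 → s • w ∈ P) {t : ℝ} (ht : 0 < t) :
    4 / 3 * Real.pi * t ^ 3 + ‖w‖ * Real.pi * t ^ 2 ≤
      (volume (P + Metric.closedBall (0 : E3) t)).toReal := by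
  have hsub : Cap w t ⊆ P + Metric.closedBall (0 : E3) t := by
    rintro x ⟨s, h0, h1, h2⟩
    refine ⟨s • w, hw s h0 h1, x - s • w, ?_, by simp⟩
    rw [Metric.mem_closedBall, dist_zero_right, ← dist_eq_norm]
    exact h2
  have h := ENNReal.toReal_mono (add_ball_ne_top hP t) (measure_mono (μ := volume) hsub)
  rw [vol_Cap w t ht.le, ENNReal.toReal_ofReal (by have := Real.pi_pos; positivity)] at h
  exact h

lemma vol_upper {P : Set E3} (w : E3) {δ : ℝ} (hδ : 0 ≤ δ)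
    (hw : ∀ x ∈ P, ∃ s : ℝ, 0 ≤ s ∧ s ≤ 1 ∧ dist x (s • w) ≤ δ) {t : ℝ} (ht : 0 < t) :
    (volume (P + Metric.closedBall (0 : E3) t)).toReal ≤
      4 / 3 * Real.pi * (t + δ) ^ 3 + ‖w‖ * Real.pi * (t + δ) ^ 2 := by
  have hsub : P + Metric.closedBall (0 : E3) t ⊆ Cap w (t + δ) := by
    rintro _ ⟨x, hx, y, hy, rfl⟩
    obtain ⟨s, h0, h1, h2⟩ := hw x hx
    refine ⟨s, h0, h1, ?_⟩
    rw [Metric.mem_closedBall, dist_zero_right] at hy
    rw [dist_eq_norm] at h2 ⊢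
    calc ‖x + y - s • w‖ = ‖y + (x - s • w)‖ := by congr 1; abel
      _ ≤ ‖y‖ + ‖x - s • w‖ := norm_add_le _ _
      _ ≤ t + δ := add_le_add hy h2
  have h := ENNReal.toReal_mono (by rw [vol_Cap _ _ (by linarith)]; exact ENNReal.ofReal_ne_top)
    (measure_mono (μ := volume) hsub)
  rw [vol_Cap w _ (by linarith),
    ENNReal.toReal_ofReal (by have := Real.pi_pos; positivity)] at h
  exact h

/-- reading off the quadratic coefficient -/
lemma coeff_two {f : ℝ → ℝ} {a0 a1 a2 a3 A L : ℝ}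
    (hf : ∀ t : ℝ, 0 < t → f t = a0 + a1 * t + a2 * t ^ 2 + a3 * t ^ 3)
    (h : Tendsto (fun t : ℝ => (f t - 2 * t * A) / (Real.pi * t ^ 2)) (𝓝[>] 0) (𝓝 L)) :
    a2 = Real.pi * L := by
  have hpi := Real.pi_pos
  have hid : Tendsto (fun t : ℝ => t) (𝓝[>] 0) (𝓝 (0 : ℝ)) :=
    tendsto_nhdsWithin_of_tendsto_nhds tendsto_id
  have hpoly : ∀ p : ℝ → ℝ, Continuous p → Tendsto p (𝓝[>] 0) (𝓝 (p 0)) := fun p hp =>
    tendsto_nhdsWithin_of_tendsto_nhds (hp.tendsto 0)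
  have e0 : a0 = 0 := by
    have h1 := h.mul (hpoly (fun t : ℝ => Real.pi * t ^ 2) (by fun_prop))
    have h2 := hpoly (fun t : ℝ => a0 + (a1 - 2 * A) * t + a2 * t ^ 2 + a3 * t ^ 3) (by fun_prop)
    have h3 : (fun t : ℝ => (f t - 2 * t * A) / (Real.pi * t ^ 2) * (Real.pi * t ^ 2)) =ᶠ[𝓝[>] 0]
        (fun t : ℝ => a0 + (a1 - 2 * A) * t + a2 * t ^ 2 + a3 * t ^ 3) := by
      filter_upwards [self_mem_nhdsWithin] with t ht
      have ht' : (0 : ℝ) < t := ht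
      rw [div_mul_cancel₀ _ (by positivity), hf t ht']
      ring
    have h4 := tendsto_nhds_unique (h1.congr' h3) h2
    norm_num at h4
    linarith
  subst e0
  have e1 : a1 - 2 * A = 0 := by
    have h1 := h.mul (hpoly (fun t : ℝ => Real.pi * t) (by fun_prop))
    have h2 := hpoly (fun t : ℝ => (a1 - 2 * A) + a2 * t + a3 * t ^ 2) (by fun_prop)
    have h3 : (fun t : ℝ => (f t - 2 * t * A) / (Real.pi * t ^ 2) * (Real.pi * t)) =ᶠ[𝓝[>] 0]
        (fun t : ℝ => (a1 - 2 * A) + a2 * t + a3 * t ^ 2) := by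
      filter_upwards [self_mem_nhdsWithin] with t ht
      have ht' : (0 : ℝ) < t := ht
      rw [hf t ht']
      field_simp
      ring
    have h4 := tendsto_nhds_unique (h1.congr' h3) h2
    norm_num at h4
    linarith
  have h2 := hpoly (fun t : ℝ => (a2 + a3 * t) / Real.pi) (by fun_prop)
  have h3 : (fun t : ℝ => (f t - 2 * t * A) / (Real.pi * t ^ 2)) =ᶠ[𝓝[>] 0]
      (fun t : ℝ => (a2 + a3 * t) / Real.pi) := by
    filter_upwards [self_mem_nhdsWithin] with t ht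
    have ht' : (0 : ℝ) < t := ht
    have e2 : a1 = 2 * A := by linarith
    rw [hf t ht', e2]
    field_simp
    ring
  have h4 := tendsto_nhds_unique (h.congr' h3) h2
  rw [h4]
  field_simp
  ring

/-- bounds for the quadratic coefficient -/
lemma coeff_bounds {P : Set E3} (hP : IsCompact P) {a0 a1 a2 a3 : ℝ}
    (hf : ∀ t : ℝ, 0 < t → (volume (P + Metric.closedBall (0 : E3) t)).toReal =
        a0 + a1 * t + a2 * t ^ 2 + a3 * t ^ 3) (w v : E3) {δ : ℝ} (hδ : 0 ≤ δ)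
    (hw : ∀ x ∈ P, ∃ s : ℝ, 0 ≤ s ∧ s ≤ 1 ∧ dist x (s • w) ≤ δ)
    (hv : ∀ s : ℝ, 0 ≤ s → s ≤ 1 → s • v ∈ P) :
    Real.pi * ‖v‖ ≤ a2 ∧ a2 ≤ Real.pi * (‖w‖ + 4 * δ) := by
  have A3 : 0 ≤ 4 / 3 * Real.pi - a3 := by
    apply lead3 (c0 := 4 / 3 * Real.pi * δ ^ 3 + ‖w‖ * Real.pi * δ ^ 2 - a0)
      (c1 := 4 * Real.pi * δ ^ 2 + 2 * ‖w‖ * Real.pi * δ - a1)
      (c2 := 4 * Real.pi * δ + ‖w‖ * Real.pi - a2)
    intro e he
    have h1 := vol_upper w hδ hw he
    rw [hf e he] at h1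
    nlinarith
  have B3 : 0 ≤ a3 - 4 / 3 * Real.pi := by
    apply lead3 (c0 := a0) (c1 := a1) (c2 := a2 - ‖v‖ * Real.pi)
    intro e he
    have h1 := vol_lower hP v hv he
    rw [hf e he] at h1
    nlinarith
  constructor
  · have C2 : 0 ≤ a2 - ‖v‖ * Real.pi := by
      apply lead2 (c0 := a0) (c1 := a1)
      intro e he
      have h1 := vol_lower hP v hv he
      rw [hf e he] at h1
      have h3 : 0 ≤ (4 / 3 * Real.pi - a3) * e ^ 3 := mul_nonneg A3 (by positivity)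
      nlinarith
    linarith
  · have C2 : 0 ≤ 4 * Real.pi * δ + ‖w‖ * Real.pi - a2 := by
      apply lead2 (c0 := 4 / 3 * Real.pi * δ ^ 3 + ‖w‖ * Real.pi * δ ^ 2 - a0)
        (c1 := 4 * Real.pi * δ ^ 2 + 2 * ‖w‖ * Real.pi * δ - a1)
      intro e he
      have h1 := vol_upper w hδ hw he
      rw [hf e he] at h1
      have h3 : 0 ≤ (a3 - 4 / 3 * Real.pi) * e ^ 3 := mul_nonneg B3 (by positivity)
      nlinarith
    linarith

end Pool.Agent.N556.RP
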